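import Pool.Agent.L5helper29.AA.GStm
import Pool.Agent.L5helper29.AA.Defs

/-!
# Families with large monodromy over finite fields: the definitions of the statement
-/

set_option autoImplicit false
set_option linter.all false

namespace Pool.Agent.L5helper29.AAS

open Polynomial NumberField Finset TensorProduct
open Pool.Agent.L5helper29.AA (share total GaussDet)
open Pool.Agent.L5helper29.TQ (GoodPair EvenSupports FermatGenerated)

/-! ## Sets of eigenvalues -/

/-- A set of eigenvalues of unitary type: the group `G` of automorphisms of `ℂ` acts on it doubly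
transitively, or transitively if the number of its elements is a prime number; the elements are not
zero and have the same absolute value, and not all quotients are roots of unity. -/
structure Blk (G : Subgroup (RingAut ℂ)) (S : Finset ℂ) : Prop where
  ne_zero : ∀ x ∈ S, x ≠ 0
  norm : ∀ x ∈ S, ∀ y ∈ S, ‖x‖ = ‖y‖
  stable : ∀ σ ∈ G, ∀ x ∈ S, σ x ∈ S
  large : (∀ x ∈ S, ∀ y ∈ S, ∀ x' ∈ S, ∀ y' ∈ S, x ≠ y → x' ≠ y' → ∃ σ ∈ G, σ x = x' ∧ σ y = y') ∨
    (S.card.Prime ∧ ∀ x ∈ S, ∀ y ∈ S, ∃ σ ∈ G, σ x = y)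
  generic : ∃ x ∈ S, ∃ y ∈ S, ∀ N : ℕ, 0 < N → x ^ N ≠ y ^ N

/-- A set of eigenvalues of symplectic type: it is stable under `x ↦ q / x` and the group `G` of
automorphisms of `ℂ` acts on it transitively; for each `x` some element of `G` exchanges `x` and
`q / x` and fixes the others; the elements are not roots of powers of `q`. -/
structure BlkS (q : ℕ) (G : Subgroup (RingAut ℂ)) (S : Finset ℂ) : Prop where
  ne_zero : ∀ x ∈ S, x ≠ 0
  stable : ∀ σ ∈ G, ∀ x ∈ S, σ x ∈ S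
  dual : ∀ x ∈ S, (q : ℂ) / x ∈ S
  trans : ∀ x ∈ S, ∀ y ∈ S, ∃ σ ∈ G, σ x = y
  flip : ∀ x ∈ S, ∃ σ ∈ G, σ x = q / x ∧ ∀ y ∈ S, y ≠ x → y ≠ q / x → σ y = y
  generic : ∃ x ∈ S, ∀ N : ℕ, 0 < N → ∀ k : ℤ, x ^ N ≠ (q : ℂ) ^ k

/-- Independence of the members of a family: for every finite part of the family and every other
member some element of `G` fixes all eigenvalues of the former, but not all of the latter. -/
def Independent (G : Subgroup (RingAut ℂ)) {J : Type} (A : J → Finset ℂ) : Prop :=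
  ∀ (F : Finset J) (j : J), j ∉ F → ∃ σ ∈ G, (∀ i ∈ F, ∀ x ∈ A i, σ x = x) ∧ ∃ x ∈ A j, σ x ≠ x

/-! ## Tate classes -/

/-- Up to powers, `z` is in the group generated by `q` and the elements of `B`. -/
def InGrp (q : ℕ) (B : Finset ℂ) (z : ℂ) : Prop :=
  ∃ (N : ℕ) (k : ℤ) (n : ℂ → ℤ), 0 < N ∧ z ^ N = (q : ℂ) ^ k * ∏ b ∈ B, b ^ n b

/-- The space is spanned by eigenvectors with eigenvalues `α`, `Q / α`, `α ∈ A j`, and `α ∈ A' i`. -/
def Spanned {V : Type} [AddCommGroup V] [Module ℂ V] (Φ : V →ₗ[ℂ] V) (Q : ℕ) {J J' : Type}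
    (A : J → Finset ℂ) (A' : J' → Finset ℂ) : Prop :=
  Submodule.span ℂ {v : V | (∃ j, ∃ α ∈ A j, Φ v = α • v ∨ Φ v = ((Q : ℂ) / α) • v) ∨
    ∃ i, ∃ α ∈ A' i, Φ v = α • v} = ⊤

/-- Tate classes in `W ⊗ ⋀ ^ k V` over the extension of degree `s`: the eigenvalue of the Frobenius
is `(Q ^ m) ^ s`. -/
def IsTateRel {V W : Type} [AddCommGroup V] [Module ℂ V] [AddCommGroup W] [Module ℂ W]
    (Φ : V →ₗ[ℂ] V) (Ψ : W →ₗ[ℂ] W) (Q : ℂ) (k : ℕ) (m : ℤ) (s : ℕ)
    (x : W ⊗[ℂ] ExteriorAlgebra ℂ V) : Prop :=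
  x ∈ Submodule.span ℂ {y | ∃ w : W, ∃ z ∈ ⋀[ℂ]^k V, y = w ⊗ₜ[ℂ] z} ∧
    TensorProduct.map (Ψ ^ s) (ExteriorAlgebra.map (Φ ^ s)).toLinearMap x = (Q ^ m) ^ s • x

/-- Up to finite extensions, all eigenvectors of `Ψ` are Tate classes. -/
def OnlyTate {W : Type} [AddCommGroup W] [Module ℂ W] (Ψ : W →ₗ[ℂ] W) (Q : ℂ) : Prop :=
  ∀ ν : ℂ, Module.End.HasEigenvalue Ψ ν → ∃ (e : ℕ) (a : ℤ), 0 < e ∧ ν ^ e = (Q ^ a) ^ e

/-- The Tate classes of degree two. -/
def deg2 {V : Type} [AddCommGroup V] [Module ℂ V] (Φ : V →ₗ[ℂ] V) (Q : ℂ) :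
    Set (ExteriorAlgebra ℂ V) :=
  {y | y ∈ ⋀[ℂ]^2 V ∧ ExteriorAlgebra.map Φ y = Q • y}

/-- The products of eigenvectors of `Φ`, one for each element of the multiset `S` of eigenvalues. -/
def detC {V : Type} [AddCommGroup V] [Module ℂ V] (Φ : V →ₗ[ℂ] V) (S : Multiset ℂ) :
    Set (ExteriorAlgebra ℂ V) :=
  {w | ∃ L : List (V × ℂ), ((L.map Prod.snd : List ℂ) : Multiset ℂ) = S ∧
    (∀ e ∈ L, Φ e.1 = e.2 • e.1) ∧ w = (L.map (fun e => ExteriorAlgebra.ι ℂ e.1)).prod}

/-- The union of `t j` copies of `A j`, if `t j` is positive, and of `- t j` copies of the set of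
the numbers `Q / x`, `x ∈ A j`, if `t j` is negative: the eigenvalues on the product of the
`(det V_j) ^ (t j)`. -/
noncomputable def blocks (Q : ℂ) {J : Type} [Fintype J] (A : J → Finset ℂ) (t : J → ℤ) :
    Multiset ℂ :=
  ∑ j, ((t j).toNat • (A j).val + (-t j).toNat • (A j).val.map (fun x => Q / x))

/-- The determinants, that is the products of the elements of the sets `A j`, are products of Gauss
sums of the field with `Q` elements. -/
def Gauss (Q : ℕ) {J : Type} (A : J → Finset ℂ) (p m : ℕ) (s : J → Multiset (ZMod m)) : Prop :=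
  ∃ (𝔽 : Type) (_ : Field 𝔽) (_ : Fintype 𝔽) (_ : CharP 𝔽 p) (θ : MulChar 𝔽 ℂ)
    (ψ : AddChar 𝔽 ℂ), Fintype.card 𝔽 = Q ∧
      GaussDet θ ψ s (fun j => (A j).card) (fun j => ∏ x ∈ A j, x)

/-- The products of the `(det V_j) ^ (t j)` are Tate classes, up to finite extensions; if the
determinants are products of Gauss sums, then the union of the multisets `s j`, with
multiplicities `t j`, is a Tate character of the Fermat varieties, and it is generated by known ones
for good pairs `(p, m)` and for even supports. -/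
def TateType (Q : ℕ) {J : Type} [Fintype J] (A : J → Finset ℂ) (t : J → ℤ) : Prop :=
  (∃ e a : ℕ, 0 < e ∧ (blocks (Q : ℂ) A t).card = 2 * a ∧
    (blocks (Q : ℂ) A t).prod ^ e = ((Q : ℂ) ^ a) ^ e) ∧
  ∀ (p m : ℕ) [Fact p.Prime] [NeZero m] (s : J → Multiset (ZMod m)), Gauss Q A p m s →
    Pool.Agent.H916T.IsTate p m (total s t) ∧
      (GoodPair p m ∨ (∀ j, EvenSupports (s j)) → FermatGenerated p m (total s t))

/-- The classes `w ⊗ (D * R)`, where `D` is a product of eigenvectors for the eigenvalues of the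
`(det V_j) ^ (t j)`, `w ⊗ D` is a Tate class, and `R` is a polynomial in Tate classes of degree two. -/
def Standard {V W : Type} [AddCommGroup V] [Module ℂ V] [AddCommGroup W] [Module ℂ W]
    (Φ : V →ₗ[ℂ] V) (Ψ : W →ₗ[ℂ] W) (Q : ℕ) {J : Type} [Fintype J] (A : J → Finset ℂ)
    (k : ℕ) (m : ℤ) (s : ℕ) : Set (W ⊗[ℂ] ExteriorAlgebra ℂ V) :=
  {y | ∃ (t : J → ℤ) (w : W) (D R : ExteriorAlgebra ℂ V) (c : ℕ),
    D ∈ detC Φ (blocks (Q : ℂ) A t) ∧ R ∈ Algebra.adjoin ℂ (deg2 Φ (Q : ℂ)) ∧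
    k = (blocks (Q : ℂ) A t).card + 2 * c ∧
    IsTateRel Φ Ψ (Q : ℂ) (blocks (Q : ℂ) A t).card (m - c) s (w ⊗ₜ[ℂ] D) ∧
    (OnlyTate Ψ (Q : ℂ) → TateType Q A t) ∧ y = w ⊗ₜ[ℂ] (D * R)}

/-- All Tate classes on the products of a variety, whose eigenvalues are in the group generated by `Q`
and `B`, with abelian varieties, whose eigenvalues are in the sets `A j`, `Q / A j` and `A' i`, are
sums of classes `w ⊗ (D * R)`. -/
def TateProp (Q : ℕ) {J J' : Type} [Fintype J] (A : J → Finset ℂ) (A' : J' → Finset ℂ)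
    (B : Finset ℂ) : Prop :=
  ∀ (V : Type) [AddCommGroup V] [Module ℂ V] (Φ : V →ₗ[ℂ] V) (W : Type) [AddCommGroup W]
    [Module ℂ W] [FiniteDimensional ℂ W] (Ψ : W →ₗ[ℂ] W), Spanned Φ Q A A' →
    (∀ ν : ℂ, Module.End.HasEigenvalue Ψ ν → InGrp Q B ν) →
    ∀ (k : ℕ) (m : ℤ) (s : ℕ) (x : W ⊗[ℂ] ExteriorAlgebra ℂ V), 1 ≤ s →
      IsTateRel Φ Ψ (Q : ℂ) k m s x → x ∈ Submodule.span ℂ (Standard Φ Ψ Q A k m s)

/-! ## Families -/

/-- the complex roots of the polynomial `P` over the ring of integers of `K`, where `K` is a field of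
complex numbers by `τ` -/
noncomputable def rts {K : Type} [Field K] [NumberField K] (τ : K →+* ℂ) (P : (𝓞 K)[X]) :
    Finset ℂ :=
  (P.map (τ.comp (algebraMap (𝓞 K) K))).roots.toFinset

/-- the complex roots of an integral polynomial -/
noncomputable def rtsZ (f : ℤ[X]) : Finset ℂ := (f.map (Int.castRingHom ℂ)).roots.toFinset

/-- the polynomial `X ^ g h (X + q / X)`, where `g` is the degree of `h` -/
noncomputable def weil (q : ℕ) (h : ℤ[X]) : ℤ[X] :=
  ∑ j ∈ Finset.range (h.natDegree + 1),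
    C (h.coeff j) * ((X ^ 2 + C (q : ℤ)) ^ j * X ^ (h.natDegree - j))

/-- The symplectic similitudes with multiplier `γ` of the space of dimension `2 g` over the field
with `l` elements: the matrices `A` with `A J Aᵀ = γ J`, where `J` is the matrix of the standard
alternating form. -/
def similitudes (g l : ℕ) (γ : ZMod l) : Set (Matrix (Fin g ⊕ Fin g) (Fin g ⊕ Fin g) (ZMod l)) :=
  {A | A * Matrix.J (Fin g) (ZMod l) * A.transpose = γ • Matrix.J (Fin g) (ZMod l)}

/-- The proportion, among the symplectic similitudes with multiplier `q` of the space of dimension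
`2 g` over the field with `l` elements, of those whose characteristic polynomial is
`weil q h` (modulo `l`) for a monic polynomial `h` of degree `g` whose reduction modulo `l` is in `E`. -/
noncomputable def proportion (g l q : ℕ) (E : Set (ZMod l)[X]) : ℝ :=
  ({A : Matrix (Fin g ⊕ Fin g) (Fin g ⊕ Fin g) (ZMod l) | A ∈ similitudes g l q ∧
      ∃ h : ℤ[X], h.Monic ∧ h.natDegree = g ∧ h.map (Int.castRingHom (ZMod l)) ∈ E ∧
        A.charpoly = (weil q h).map (Int.castRingHom (ZMod l))}.ncard : ℝ) /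
    ((similitudes g l q).ncard : ℝ)

/-- Equidistribution: for two large primes `r ≠ r'` and homomorphisms `φ`, `φ'` of the ring of
integers of `K` to the fields with `r` and `r'` elements, the reductions of the tuples `(P j)`,
`(h i)` are distributed, for `n → ∞`, like the characteristic polynomials of independent random
matrices of size `N j` with determinant `δ j`, and like those (`weil`) of independent random symplectic
similitudes of size `2 g i` with multiplier `q ^ n`. -/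
def EquiM {K : Type} [Field K] [NumberField K] (q : ℕ) {J J' : Type} [Fintype J] [Fintype J']
    (N : J → ℕ) (g : J' → ℕ) (S : ℕ → Type) [∀ n, Fintype (S n)] (P : ∀ n, S n → J → (𝓞 K)[X])
    (h : ∀ n, S n → J' → ℤ[X]) (δ : ℕ → J → 𝓞 K) : Prop :=
  ∃ r₀ : ℕ, ∀ (r r' : ℕ) (φ : 𝓞 K →+* ZMod r) (φ' : 𝓞 K →+* ZMod r'), r.Prime → r'.Prime →
    r₀ ≤ r → r₀ ≤ r' → r ≠ r' → ∀ ε : ℝ, 0 < ε → ∃ n₀ : ℕ, ∀ n ≥ n₀, Nonempty (S n) →
      ∀ (E : J → Set (ZMod r)[X]) (E' : J → Set (ZMod r')[X]) (D : J' → Set (ZMod r)[X])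
        (D' : J' → Set (ZMod r')[X]),
        |({s : S n | (∀ j, (P n s j).map φ ∈ E j ∧ (P n s j).map φ' ∈ E' j) ∧
            ∀ i, (h n s i).map (Int.castRingHom (ZMod r)) ∈ D i ∧
              (h n s i).map (Int.castRingHom (ZMod r')) ∈ D' i}.ncard : ℝ) /
            (Nat.card (S n) : ℝ) -
          (∏ j, share (N j) r (φ (δ n j)) (E j) * share (N j) r' (φ' (δ n j)) (E' j)) *
            ∏ i, proportion (g i) r (q ^ n) (D i) * proportion (g i) r' (q ^ n) (D' i)| ≤ ε

/-- A family with large monodromy: the characteristic polynomials `P n s j`, and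
`weil (q ^ n) (h n s i)`, of the Frobenius on the parts `V_j` of unitary type and `V'_i` of
symplectic type of the members `s ∈ S n` over the field with `q ^ n` elements. -/
structure BigFamily {K : Type} [Field K] [NumberField K] (τ : K →+* ℂ) (q : ℕ) {J J' : Type}
    [Fintype J] [Fintype J'] (N : J → ℕ) (g : J' → ℕ) (S : ℕ → Type) [∀ n, Fintype (S n)]
    (P : ∀ n, S n → J → (𝓞 K)[X]) (h : ∀ n, S n → J' → ℤ[X]) (δ : ℕ → J → 𝓞 K) : Prop where
  three_le : ∀ j, 3 ≤ N j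
  pos : ∀ i, 0 < g i
  monic : ∀ n s j, (P n s j).Monic
  natDegree : ∀ n s j, (P n s j).natDegree = N j
  monic' : ∀ n s i, (h n s i).Monic
  natDegree' : ∀ n s i, (h n s i).natDegree = g i
  norm : ∀ n s j, ∀ x ∈ rts τ (P n s j), ‖x‖ = Real.sqrt ((q ^ n : ℕ) : ℝ)
  norm' : ∀ n s i, ∀ x ∈ rtsZ (weil (q ^ n) (h n s i)), ‖x‖ = Real.sqrt ((q ^ n : ℕ) : ℝ)
  dvd : ∀ n j, ∃ k : ℕ, δ n j ∣ (q : 𝓞 K) ^ k
  equi : EquiM q N g S P h δ

end Pool.Agent.L5helper29.AAS
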